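import Pool.Agent.Q44.SA.Stm

/-!
# Project SA (helper44), job AD: adjugate matrices of rank three matrices, chains over a field
-/

set_option autoImplicit false

namespace Pool.Agent.Q53.SA.AD

open Pool.Agent.Q44.SA Matrix

/-- a vector of the right kernel with a certain zero coordinate is zero -/
theorem ker0 {F : Type} [Field F] (M : Matrix (Fin 4) (Fin 4) F) {a b : Fin 4}
    (h : M.adjugate a b ≠ 0) {v : Fin 4 → F} (hv : M.mulVec v = 0) (ha : v a = 0) : v = 0 := by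
  rw [adjugate_apply] at h
  by_contra h0
  apply h
  refine exists_mulVec_eq_zero_iff.1 ⟨v, h0, ?_⟩
  funext i
  by_cases hi : i = b
  · subst hi
    have e : (M.updateRow i (Pi.single a 1)).mulVec v i = v a := by
      show (M.updateRow i (Pi.single a 1)) i ⬝ᵥ v = v a
      rw [updateRow_self, single_one_dotProduct]
    rw [e, ha]
    rfl
  · have h1 : (M.updateRow b (Pi.single a 1)).mulVec v i = M.mulVec v i := by
      simp [mulVec, updateRow_ne hi]
    rw [h1, hv]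

theorem ker1 {F : Type} [Field F] (M : Matrix (Fin 4) (Fin 4) F) {a b : Fin 4}
    (h : M.adjugate a b ≠ 0) {v v' : Fin 4 → F} (hv : M.mulVec v = 0) (hv' : M.mulVec v' = 0)
    (i : Fin 4) : v' a * v i = v a * v' i := by
  have h1 : v' a • v - v a • v' = 0 := by
    apply ker0 M h
    · rw [mulVec_sub, mulVec_smul, mulVec_smul, hv, hv', smul_zero, smul_zero, sub_zero]
    · simp only [Pi.sub_apply, Pi.smul_apply, smul_eq_mul]
      ring
  have h2 := congrFun h1 i
  simp only [Pi.sub_apply, Pi.smul_apply, smul_eq_mul, Pi.zero_apply] at h2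
  linear_combination h2

theorem adj : S_adj := by
  intro F _ M hdet hadj
  refine ⟨exists_vecMul_eq_zero_iff.2 hdet, exists_mulVec_eq_zero_iff.2 hdet, ?_⟩
  intro u v hu hv hu0 hv0
  obtain ⟨a0, b0, h0⟩ : ∃ a b, M.adjugate a b ≠ 0 := by
    by_contra h
    push Not at h
    apply hadj
    ext a b
    exact h a b
  have h0T : Mᵀ.adjugate b0 a0 ≠ 0 := by
    rw [← adjugate_transpose]
    exact h0
  have hu0' : Mᵀ.mulVec u = 0 := by rw [mulVec_transpose]; exact hu0
  have hva : v a0 ≠ 0 := fun h => hv (ker0 M h0 hv0 h)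
  have hub : u b0 ≠ 0 := fun h => hu (ker0 Mᵀ h0T hu0' h)
  have hcol : ∀ b, M.mulVec (fun a => M.adjugate a b) = 0 := by
    intro b
    have h1 := mul_adjugate M
    rw [hdet, zero_smul] at h1
    funext i
    exact congrFun (congrFun h1 i) b
  have hrow : ∀ a, Mᵀ.mulVec (fun b => M.adjugate a b) = 0 := by
    intro a
    have h1 := adjugate_mul M
    rw [hdet, zero_smul] at h1
    rw [mulVec_transpose]
    funext i
    exact congrFun (congrFun h1 a) i
  refine ⟨M.adjugate a0 b0 / (v a0 * u b0), div_ne_zero h0 (mul_ne_zero hva hub), fun a b => ?_⟩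
  have e1 := ker1 M h0 hv0 (hcol b) a
  have e2 := ker1 Mᵀ h0T hu0' (hrow a0) b
  field_simp
  linear_combination -u b0 * e1 - v a * e2

theorem vec {F : Type} [Field F] (A : Ten F) (w v : Fin 4 → F) (c : Fin 4) :
    ∑ a, ∑ b, A a b c * w a * v b = vecMul v (A.mat w) c := by
  simp only [vecMul, dotProduct, Ten.mat, of_apply, Finset.mul_sum]
  rw [Finset.sum_comm]
  refine Finset.sum_congr rfl fun b _ => Finset.sum_congr rfl fun a _ => ?_
  ring

theorem vec' {F : Type} [Field F] (A : Ten F) (w v : Fin 4 → F) (c : Fin 4) :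
    ∑ a, ∑ b, A.rot.rot a b c * v a * w b = mulVec (A.mat w) v c := by
  simp only [mulVec, dotProduct, Ten.mat, of_apply, Finset.sum_mul, Ten.rot]
  refine Finset.sum_congr rfl fun b _ => Finset.sum_congr rfl fun a _ => ?_
  ring

theorem nxt_iff {F : Type} [Field F] (A : Ten F) (w v : Fin 4 → F) :
    A.Nxt w v ↔ w ≠ 0 ∧ v ≠ 0 ∧ vecMul v (A.mat w) = 0 := by
  unfold Ten.Nxt
  simp only [vec]
  rw [funext_iff]
  rfl

theorem nxt_iff' {F : Type} [Field F] (A : Ten F) (w v : Fin 4 → F) :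
    A.rot.rot.Nxt v w ↔ v ≠ 0 ∧ w ≠ 0 ∧ mulVec (A.mat w) v = 0 := by
  unfold Ten.Nxt
  simp only [vec']
  rw [funext_iff]
  rfl

theorem prop {F : Type} [Field F] {v v' : Fin 4 → F} {a : Fin 4}
    (ha : v a ≠ 0) (ha' : v' a ≠ 0) (h : ∀ i, v' a * v i = v a * v' i) :
    ∃ s : F, s ≠ 0 ∧ v' = s • v := by
  refine ⟨v' a / v a, div_ne_zero ha' ha, ?_⟩
  funext i
  simp only [Pi.smul_apply, smul_eq_mul]
  field_simp
  linear_combination -h i

theorem dC : S_dC := by
  intro F _ A hA w hw hdet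
  have hadj := hA w hw
  obtain ⟨⟨u1, hu1, hu1'⟩, ⟨v1, hv1, hv1'⟩, hm⟩ := adj F (A.mat w) hdet hadj
  obtain ⟨a0, b0, h0⟩ : ∃ a b, (A.mat w).adjugate a b ≠ 0 := by
    by_contra h
    push Not at h
    apply hadj
    ext a b
    exact h a b
  have h0T : (A.mat w)ᵀ.adjugate b0 a0 ≠ 0 := by
    rw [← adjugate_transpose]
    exact h0
  refine ⟨⟨u1, (nxt_iff A w u1).2 ⟨hw, hu1, hu1'⟩⟩, ⟨v1, (nxt_iff' A w v1).2 ⟨hv1, hw, hv1'⟩⟩,
    ?_, ?_, ?_, ?_⟩
  · intro v hv
    obtain ⟨-, hv0, hv2⟩ := (nxt_iff A w v).1 hv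
    refine ⟨?_, fun v' hv' => ?_⟩
    · refine exists_mulVec_eq_zero_iff.1 ⟨w, hw, ?_⟩
      funext b
      have h1 := hv.2.2 b
      simp only [mulVec, dotProduct, Ten.mat, of_apply, Finset.sum_mul, Ten.rot, Pi.zero_apply]
      rw [← h1]
      refine Finset.sum_congr rfl fun c _ => Finset.sum_congr rfl fun a _ => ?_
      ring
    · obtain ⟨-, hv0', hv2'⟩ := (nxt_iff A w v').1 hv'
      have k1 : (A.mat w)ᵀ.mulVec v = 0 := by rw [mulVec_transpose]; exact hv2
      have k2 : (A.mat w)ᵀ.mulVec v' = 0 := by rw [mulVec_transpose]; exact hv2'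
      exact prop (fun h => hv0 (ker0 _ h0T k1 h)) (fun h => hv0' (ker0 _ h0T k2 h))
        (ker1 _ h0T k1 k2)
  · intro v hv
    obtain ⟨hv0, -, hv2⟩ := (nxt_iff' A w v).1 hv
    refine ⟨?_, fun v' hv' => ?_⟩
    · refine exists_vecMul_eq_zero_iff.1 ⟨w, hw, ?_⟩
      funext c
      have h1 := hv.2.2 c
      rw [← vec, Pi.zero_apply]
      exact h1
    · obtain ⟨hv0', -, hv2'⟩ := (nxt_iff' A w v').1 hv'
      exact prop (fun h => hv0 (ker0 _ h0 hv2 h)) (fun h => hv0' (ker0 _ h0 hv2' h))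
        (ker1 _ h0 hv2 hv2')
  · intro v hv
    obtain ⟨-, hv0, hv2⟩ := (nxt_iff A w v).1 hv
    obtain ⟨c, hc, h1⟩ := hm v v1 hv0 hv1 hv2 hv1'
    exact ⟨fun a => ⟨c * v1 a, fun b => h1 a b⟩, a0, b0, h0⟩
  · intro v hv b
    obtain ⟨hv0, -, hv2⟩ := (nxt_iff' A w v).1 hv
    obtain ⟨c, hc, h1⟩ := hm u1 v hu1 hv0 hu1' hv2
    refine ⟨c * u1 b, fun a => ?_⟩
    rw [h1 a b]
    ring

end Pool.Agent.Q53.SA.AD
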