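import Pool.Agent.Q44.SA.Stm

/-!
# Project SA (helper44), job DE: density
-/

set_option autoImplicit false

namespace Pool.Agent.Q53.SA.DE

open Pool.Agent.Q44.SA MvPolynomial Height Filter

/-- **S_densM** -/
theorem main (h1 : S_normA) (h2 : S_cmpM) : S_densM := by
  intro K _ _ n I hp hH htr φ ψ hψ z hz ρ hρ hg m hm f hf
  by_contra hfI
  have hA : ∀ a : Fin 3 → Fin n, ∃ (α : ℕ) (A : MvPolynomial (Fin 3) K), A.IsHomogeneous α ∧
      A ≠ 0 ∧ ∀ j, eval (z (m * j) ∘ a) A = 0 := by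
    intro a
    obtain ⟨α, A, hA1, hA2, hA3⟩ := h1 K n I hp hH htr f hfI a
    exact ⟨α, A, hA1, hA2, fun j => hA3 _ (hz.1 _) (hf j)⟩
  choose α A hA1 hA2 hA3 using hA
  have hM1 : ∀ a, α a ≤ Finset.univ.sup α := fun a => Finset.le_sup (Finset.mem_univ a)
  generalize Finset.univ.sup α = M at hM1
  obtain ⟨k₀, hk₀⟩ := hg
  have hmul : Tendsto (fun j : ℕ => m * j) atTop atTop := by
    refine tendsto_atTop_mono (fun j => ?_) tendsto_id
    exact Nat.le_mul_of_pos_left j hm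
  have hexp : ∀ k, k₀ ≤ k → ∀ i : ℕ, ρ ^ i * logHeight (z k) ≤ logHeight (z (k + i)) := by
    intro k hk i
    induction i with
    | zero => simp
    | succ i ih =>
      have h3 := (hk₀ (k + i) (by omega)).1
      calc ρ ^ (i + 1) * logHeight (z k) = ρ * (ρ ^ i * logHeight (z k)) := by ring
        _ ≤ ρ * logHeight (z (k + i)) := mul_le_mul_of_nonneg_left ih (by linarith)
        _ ≤ logHeight (z (k + i + 1)) := h3
        _ = logHeight (z (k + (i + 1))) := by rw [add_assoc]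
  have h3 : Tendsto (fun i : ℕ => ρ ^ i) atTop atTop := tendsto_pow_atTop_atTop_of_one_lt hρ
  have htend : Tendsto (fun j : ℕ => logHeight (z (m * j))) atTop atTop := by
    have h4 : Tendsto (fun i : ℕ => logHeight (z (i + k₀))) atTop atTop := by
      refine tendsto_atTop_mono (fun i => ?_) h3
      have h5 := (hk₀ k₀ le_rfl).2
      rw [add_comm i k₀]
      have h6 : 0 ≤ ρ ^ i := pow_nonneg (by linarith) i
      exact (le_mul_of_one_le_right h6 h5).trans (hexp k₀ le_rfl i)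
    have h5 : Tendsto (fun i : ℕ => logHeight (z i)) atTop atTop :=
      (tendsto_add_atTop_iff_nat (f := fun i : ℕ => logHeight (z i)) k₀).1 h4
    exact h5.comp hmul
  obtain ⟨k, hk⟩ : ∃ k : ℕ, (n : ℝ) * (M : ℝ) ^ n + 1 ≤ ρ ^ (m * k) :=
    ((h3.comp hmul).eventually_ge_atTop ((n : ℝ) * (M : ℝ) ^ n + 1)).exists
  obtain ⟨C, hC⟩ := h2 K n I φ ψ hψ z hz m hm M
    (fun a => ⟨α a, A a, hM1 a, hA1 a, hA2 a, hA3 a⟩) htend k
  have hev1 : ∀ᶠ i : ℕ in atTop, C < logHeight (z (m * i)) := htend.eventually_gt_atTop C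
  have hev2 : ∀ᶠ i : ℕ in atTop, k₀ ≤ i := eventually_ge_atTop k₀
  obtain ⟨i, hi1, hi2, hi3⟩ := (hC.and_eventually (hev1.and hev2)).exists
  have hmi : i ≤ m * i := Nat.le_mul_of_pos_left i hm
  have h4 := hexp (m * i) (by omega) (m * k)
  rw [← mul_add] at h4
  have h5 : 0 ≤ logHeight (z (m * i)) := by
    have := (hk₀ (m * i) (by omega)).2
    linarith
  have h6 := mul_le_mul_of_nonneg_right hk h5
  linarith

end Pool.Agent.Q53.SA.DE
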