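import Pool.Agent.Q44.SA.Stm

/-!
# Project SA (helper44), job DN: Nullstellensatz for the cubic minors
-/

set_option autoImplicit false

namespace Pool.Agent.Q53.SA.DN

open MvPolynomial Pool.Agent.Q44.SA

attribute [local instance] MvPolynomial.gradedAlgebra

theorem hc_mul {K : Type} [Field K] (p q : MvPolynomial (Fin 4) K) (m n : ℕ)
    (hq : q.IsHomogeneous n) :
    homogeneousComponent (m + n) (p * q) = homogeneousComponent m p * q := by
  have h := DirectSum.coe_decompose_mul_add_of_right_mem (homogeneousSubmodule (Fin 4) K) (i := m)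
    (j := n) (a := p) (b := q) hq
  have e1 := decomposition.decompose'_apply (p * q) (m + n)
  have e2 := decomposition.decompose'_apply p m
  rw [← e1, ← e2]
  exact h

theorem aeval_adj {K L : Type} [Field K] [Field L] [Algebra K L] (A : Ten K) (x : Fin 4 → L)
    (a b : Fin 4) :
    aeval x (A.matP.adjugate a b) = ((A.map (algebraMap K L)).mat x).adjugate a b := by
  have h := RingHom.map_adjugate (aeval (R := K) x : MvPolynomial (Fin 4) K →ₐ[K] L).toRingHom A.matP
  have e : (aeval (R := K) x : MvPolynomial (Fin 4) K →ₐ[K] L).toRingHom.mapMatrix A.matP =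
      (A.map (algebraMap K L)).mat x := by
    ext i j
    simp [Ten.matP, Ten.mat, Ten.map]
  rw [e] at h
  rw [← h]
  rfl

theorem cnt : ∀ b : Fin 4, (∑ i : Fin 4, if i = b then 0 else 1) = 3 := by
  decide

theorem hom_adj {K : Type} [Field K] (A : Ten K) (a b : Fin 4) :
    (A.matP.adjugate a b).IsHomogeneous 3 := by
  classical
  have h1 : ∀ i j, (A.matP i j).IsHomogeneous 1 := by
    intro i j
    have e : A.matP i j = ∑ l : Fin 4, (C (A l i j) * X l : MvPolynomial (Fin 4) K) := by
      simp [Ten.matP]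
    rw [e]
    refine IsHomogeneous.sum _ _ _ fun l _ => ?_
    exact isHomogeneous_C_mul_X _ _
  rw [Matrix.adjugate_apply, Matrix.det_apply]
  refine IsHomogeneous.sum _ _ _ fun σ _ => ?_
  have h2 : (∏ i, (A.matP.updateRow b (Pi.single a 1)) (σ i) i).IsHomogeneous
      (∑ i, if σ i = b then 0 else 1) := by
    refine IsHomogeneous.prod _ _ _ fun i _ => ?_
    by_cases hi : σ i = b
    · rw [if_pos hi, hi, Matrix.updateRow_self]
      by_cases hia : i = a
      · rw [hia, Pi.single_eq_same]
        exact isHomogeneous_one _ _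
      · rw [Pi.single_eq_of_ne hia]
        exact isHomogeneous_zero _ _ _
    · rw [if_neg hi, Matrix.updateRow_ne hi]
      exact h1 _ _
  have h3 : (∑ i, if σ i = b then 0 else 1) = 3 := by
    rw [Equiv.sum_comp σ (fun i => if i = b then 0 else 1)]
    exact cnt b
  rw [h3] at h2
  rw [Units.smul_def]
  have h4 : (∏ i, (A.matP.updateRow b (Pi.single a 1)) (σ i) i) ∈ homogeneousSubmodule (Fin 4) K 3 := h2
  exact zsmul_mem h4 _

/-- **S_dN** -/
theorem main : S_dN := by
  intro K _ A hA
  classical
  set I : Ideal (MvPolynomial (Fin 4) K) :=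
    Ideal.span (Set.range fun j : Fin 4 × Fin 4 => A.matP.adjugate j.1 j.2) with hI
  have hz : ∀ x ∈ zeroLocus (AlgebraicClosure K) I, x = 0 := by
    intro x hx
    rw [hI, zeroLocus_span] at hx
    by_contra h0
    apply hA x h0
    ext a b
    rw [← aeval_adj]
    exact hx _ ⟨(a, b), rfl⟩
  have hr : ∀ k : Fin 4, ∃ n : ℕ, (X k : MvPolynomial (Fin 4) K) ^ n ∈ I := by
    intro k
    have h1 : (X k : MvPolynomial (Fin 4) K) ∈ vanishingIdeal K (zeroLocus (AlgebraicClosure K) I) := by
      rw [mem_vanishingIdeal_iff]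
      intro x hx
      rw [hz x hx]
      simp
    rw [vanishingIdeal_zeroLocus_eq_radical] at h1
    exact h1
  choose n hn using hr
  set M : ℕ := ∑ k, n k with hM
  have hk : ∀ k : Fin 4, (X k : MvPolynomial (Fin 4) K) ^ (M + 3) ∈ I := by
    intro k
    refine Ideal.pow_mem_of_pow_mem I (hn k) ?_
    have := Finset.single_le_sum (f := n) (fun i _ => Nat.zero_le _) (Finset.mem_univ k)
    omega
  have hc : ∀ k : Fin 4, ∃ c : Fin 4 × Fin 4 → MvPolynomial (Fin 4) K,
      ∑ j, c j * A.matP.adjugate j.1 j.2 = X k ^ (M + 3) := by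
    intro k
    have h1 := hk k
    rw [hI, Ideal.mem_span_range_iff_exists_fun] at h1
    exact h1
  choose c hc using hc
  refine ⟨M, fun a => homogeneousComponent M (c a.1 a.2), fun a =>
    homogeneousComponent_isHomogeneous _ _, fun k => ?_⟩
  have h1 := congrArg (homogeneousComponent (M + 3)) (hc k)
  rw [map_sum, homogeneousComponent_eq_self (isHomogeneous_X_pow _ _)] at h1
  rw [← h1]
  refine Finset.sum_congr rfl fun j _ => ?_
  exact (hc_mul _ _ M 3 (hom_adj A j.1 j.2)).symm

end Pool.Agent.Q53.SA.DN
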